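import Pool.Agent.Helper69.SX.Main

set_option autoImplicit false

namespace Pool.Agent.Helper69.SX.Crisp

open MvPolynomial Module Matrix

/-- The vector `x = (x₁, x₂, w)` of the coordinates `(x₁, x₂, y₁, y₂, w, z)`. -/
noncomputable def x : Fin 3 → MvPolynomial (Fin 6) ℂ := ![X 0, X 1, X 4]

/-- The vector `y = (y₁, y₂, w)`. -/
noncomputable def y : Fin 3 → MvPolynomial (Fin 6) ℂ := ![X 2, X 3, X 4]

/-- The `3 × 3` matrix with the rows `uᵀ A i`, where `z` is added to the entry `(0, 2)`. -/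
noncomputable def M (A : Fin 3 → Matrix (Fin 3) (Fin 3) ℂ) (u : Fin 3 → MvPolynomial (Fin 6) ℂ) :
    Matrix (Fin 3) (Fin 3) (MvPolynomial (Fin 6) ℂ) :=
  Matrix.of fun i j => (∑ k, u k * C (A i k j)) + if i = 0 ∧ j = 2 then X 5 else 0

/-- The quadratic forms `Q 0 = xᵀ A 0 y + w z`, `Q 1 = xᵀ A 1 y`, `Q 2 = xᵀ A 2 y`. -/
noncomputable def Q (A : Fin 3 → Matrix (Fin 3) (Fin 3) ℂ) (i : Fin 3) : MvPolynomial (Fin 6) ℂ :=
  (∑ j, ∑ k, x j * C (A i j k) * y k) + if i = 0 then X 4 * X 5 else 0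

/-- The field `ℂ(T₁, T₂)` of rational functions of the plane. -/
abbrev Plane : Type := FractionRing (MvPolynomial (Fin 2) ℂ)

/-- The generic point `(1, T₁, T₂)` of the plane. -/
noncomputable def T (i : Fin 3) : Plane :=
  algebraMap (MvPolynomial (Fin 2) ℂ) Plane (![1, X 0, X 1] i)

theorem M_eq (A : Fin 3 → Matrix (Fin 3) (Fin 3) ℂ) (u : Fin 3 → MvPolynomial (Fin 6) ℂ) :
    M A u = Main.M A u := by
  ext1 i j
  simp only [M, Main.M, Matrix.of_apply, Pi.add_apply, Matrix.vecMul, dotProduct, Matrix.map_apply]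
  congr 1
  fin_cases i <;> fin_cases j <;> simp

theorem Q_eq (A : Fin 3 → Matrix (Fin 3) (Fin 3) ℂ) (i : Fin 3) : Q A i = Main.Q A i := by
  have h : (∑ j, ∑ k, x j * C (A i j k) * y k) =
      ![X 0, X 1, X 4] ⬝ᵥ ((A i).map C *ᵥ ![X 2, X 3, X 4]) := by
    simp only [Matrix.mulVec, dotProduct, Matrix.map_apply, Finset.mul_sum, mul_assoc]
    rfl
  rw [Q, h, Main.Q]
  congr 1
  fin_cases i <;> simp

theorem planes {F : MvPolynomial (Fin 6) ℂ}
    (hP : ∀ B : Matrix (Fin 6) (Fin 3) ℂ, B.rank = 3 → ∃ s, eval (B *ᵥ s) F ≠ 0)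
    (W : Submodule ℂ (Fin 6 → ℂ)) (hW : finrank ℂ W = 3) : ∃ v ∈ W, eval v F ≠ 0 := by
  let b := Module.finBasisOfFinrankEq ℂ W hW
  let f : (Fin 3 → ℂ) →ₗ[ℂ] (Fin 6 → ℂ) := W.subtype ∘ₗ (b.equivFun.symm : (Fin 3 → ℂ) →ₗ[ℂ] W)
  have hf : ∀ s, LinearMap.toMatrix' f *ᵥ s = f s := fun s => LinearMap.toMatrix'_mulVec f s
  have hr : (LinearMap.toMatrix' f).rank = 3 := by
    have h1 : (LinearMap.toMatrix' f).mulVecLin = f := by
      ext1 i
      exact LinearMap.ext_ring (by simpa using hf (Pi.single i 1))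
    have h2 : LinearMap.range f = W := by
      rw [LinearMap.range_comp_of_range_eq_top _ (LinearEquiv.range _), Submodule.range_subtype]
    rw [Matrix.rank, h1, h2, hW]
  obtain ⟨s, hs⟩ := hP _ hr
  rw [hf] at hs
  exact ⟨f s, (b.equivFun.symm s).2, hs⟩

/-- Cubic fourfolds without planes fibred in nodal sextic del Pezzo surfaces. -/
theorem main (A : Fin 3 → Matrix (Fin 3) (Fin 3) ℂ) (a b : ℂ)
    (l : Fin 3 → MvPolynomial (Fin 6) ℂ) (hl : ∀ i, (l i).IsHomogeneous 1)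
    (F : MvPolynomial (Fin 6) ℂ)
    (hF : F = C a * (M A x).det + C b * (M (fun i => (A i)ᵀ) y).det + ∑ i, l i * Q A i)
    (hs : ∀ v : Fin 6 → ℂ, v ≠ 0 → ∃ i, eval v (pderiv i F) ≠ 0)
    (hP : ∀ B : Matrix (Fin 6) (Fin 3) ℂ, B.rank = 3 → ∃ s, eval (B *ᵥ s) F ≠ 0)
    (L : Type) [Field L] [Algebra ℂ L] [Algebra Plane L] [IsScalarTower ℂ Plane L]
    (hL : Odd (finrank Plane L)) (p : Fin 6 → L) (m : L) (hm : m ≠ 0) (hp : aeval p F = 0)
    (ht : ∀ i, aeval p (Q A i) = m * algebraMap Plane L (T i)) :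
    (Ideal.span {aeval (Fin.cons 1 X : Fin 6 → MvPolynomial (Fin 5) ℂ) F}).IsPrime ∧
      Nonempty (FractionRing (MvPolynomial (Fin 5) ℂ ⧸
          Ideal.span {aeval (Fin.cons 1 X : Fin 6 → MvPolynomial (Fin 5) ℂ) F}) ≃ₐ[ℂ]
        FractionRing (MvPolynomial (Fin 4) ℂ)) := by
  refine Main.main A a b l hl F ?_ hs (planes hP) L hL p m hm hp fun i => ?_
  · rw [hF, M_eq, M_eq]
    simp only [Q_eq]
    rfl
  · rw [← Q_eq]
    exact ht i

end Pool.Agent.Helper69.SX.Crisp
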