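import Pool.Agent.Helper69.SX.NoPlane

set_option autoImplicit false

namespace Pool.Agent.Helper69.SX.Main

open MvPolynomial Module Matrix

/-- For `A = (A 0, A 1, A 2)` and a vector `u` of length three: the `3 × 3` matrix with the rows
`uᵀ A i`, where the last coordinate `z = X 5` is added to the last entry of the first row. -/
noncomputable def M (A : Fin 3 → Matrix (Fin 3) (Fin 3) ℂ) (u : Fin 3 → MvPolynomial (Fin 6) ℂ) :
    Matrix (Fin 3) (Fin 3) (MvPolynomial (Fin 6) ℂ) :=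
  Matrix.of fun i => u ᵥ* (A i).map C + ![![0, 0, X 5], 0, 0] i

/-- The quadratic forms `Q 0 = xᵀ A 0 y + w z`, `Q 1 = xᵀ A 1 y`, `Q 2 = xᵀ A 2 y` in the
coordinates `(x₁, x₂, y₁, y₂, w, z)`, where `x = (x₁, x₂, w)` and `y = (y₁, y₂, w)`. -/
noncomputable def Q (A : Fin 3 → Matrix (Fin 3) (Fin 3) ℂ) (i : Fin 3) : MvPolynomial (Fin 6) ℂ :=
  ![X 0, X 1, X 4] ⬝ᵥ ((A i).map C *ᵥ ![X 2, X 3, X 4]) + ![X 4 * X 5, 0, 0] i

/-- The field `ℂ(T₁, T₂)` of rational functions of the plane. -/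
abbrev Plane : Type := FractionRing (MvPolynomial (Fin 2) ℂ)

private theorem M_x (A : Fin 3 → Matrix (Fin 3) (Fin 3) ℂ) :
    M A ![X 0, X 1, X 4] = Helper69.SX.matX A X := rfl

private theorem M_y (A : Fin 3 → Matrix (Fin 3) (Fin 3) ℂ) :
    M (fun i => (A i)ᵀ) ![X 2, X 3, X 4] = Helper69.SX.matY A X := by
  ext i k
  simp only [M, Helper69.SX.matY, Matrix.of_apply, Pi.add_apply]
  congr 2
  simp only [Matrix.vecMul, Matrix.mulVec, dotProduct, Matrix.map_apply, Matrix.transpose_apply,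
    Helper69.SX.yvec]
  exact Finset.sum_congr rfl fun j _ => mul_comm _ _

private theorem Q_eq (A : Fin 3 → Matrix (Fin 3) (Fin 3) ℂ) (i : Fin 3) :
    Q A i = Helper69.SX.quad A X i := rfl

private theorem linear_form (f : MvPolynomial (Fin 6) ℂ) (hf : f.IsHomogeneous 1) :
    ∃ c : Fin 6 → ℂ, f = ∑ j, algebraMap ℂ (MvPolynomial (Fin 6) ℂ) (c j) * X j := by
  have h1 : f ∈ homogeneousSubmodule (Fin 6) ℂ 1 := hf
  rw [homogeneousSubmodule_one_eq_span_X, Submodule.mem_span_range_iff_exists_fun] at h1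
  obtain ⟨c, hc⟩ := h1
  refine ⟨c, ?_⟩
  rw [← hc]
  exact Finset.sum_congr rfl fun j _ => Algebra.smul_def _ _

/-- **Cubic fourfolds fibred in nodal sextic del Pezzo surfaces.**

Let `X = {F = 0}` be a smooth complex cubic fourfold without planes, where, in the coordinates
`(x₁, x₂, y₁, y₂, w, z)`, `F = a det M + b det M' + l 0 * Q 0 + l 1 * Q 1 + l 2 * Q 2` for three
`3 × 3` matrices `A i`, two numbers `a, b` and three linear forms `l i` (all of them arbitrary).
If the rational map `(Q 0 : Q 1 : Q 2)` from `X` to the plane has a multisection of odd degree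
(a point `p` of the generic fibre outside of the base locus, with values in a field `L` of odd
degree over `ℂ(T₁, T₂)`), then `X` is rational. -/
theorem main (A : Fin 3 → Matrix (Fin 3) (Fin 3) ℂ) (a b : ℂ)
    (l : Fin 3 → MvPolynomial (Fin 6) ℂ) (hl : ∀ i, (l i).IsHomogeneous 1)
    (F : MvPolynomial (Fin 6) ℂ)
    (hF : F = C a * (M A ![X 0, X 1, X 4]).det + C b * (M (fun i => (A i)ᵀ) ![X 2, X 3, X 4]).det +
      ∑ i, l i * Q A i)
    (hs : ∀ x : Fin 6 → ℂ, x ≠ 0 → ∃ i, eval x (pderiv i F) ≠ 0)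
    (hP : ∀ W : Submodule ℂ (Fin 6 → ℂ), finrank ℂ W = 3 → ∃ x ∈ W, eval x F ≠ 0)
    (L : Type) [Field L] [Algebra ℂ L] [Algebra Plane L] [IsScalarTower ℂ Plane L]
    (hL : Odd (finrank Plane L)) (p : Fin 6 → L) (m : L) (hm : m ≠ 0) (hp : aeval p F = 0)
    (ht : ∀ i, aeval p (Q A i) =
      m * algebraMap Plane L (algebraMap (MvPolynomial (Fin 2) ℂ) Plane (![1, X 0, X 1] i))) :
    (Ideal.span {aeval (Fin.cons 1 X : Fin 6 → MvPolynomial (Fin 5) ℂ) F}).IsPrime ∧
      Nonempty (FractionRing (MvPolynomial (Fin 5) ℂ ⧸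
          Ideal.span {aeval (Fin.cons 1 X : Fin 6 → MvPolynomial (Fin 5) ℂ) F}) ≃ₐ[ℂ]
        FractionRing (MvPolynomial (Fin 4) ℂ)) := by
  choose c hc using fun i => linear_form (l i) (hl i)
  have hF' : F = Helper69.SX.cubic A a b c X := by
    rw [hF, M_x, M_y]
    simp only [Q_eq]
    unfold Helper69.SX.cubic
    simp only [hc]
    rfl
  have hX : (fun i => aeval p (X i : MvPolynomial (Fin 6) ℂ)) = p := by
    ext i
    rw [aeval_X]
  refine Helper69.SX.noplane_form A a b c F hF' hs hP L hL p m hm ?_ fun i => ?_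
  · have := Helper69.SX.cubic_map (aeval p : MvPolynomial (Fin 6) ℂ →ₐ[ℂ] L) A a b c X
    rw [← hF', hp, hX] at this
    exact this.symm
  · have := Helper69.SX.quad_map (aeval p : MvPolynomial (Fin 6) ℂ →ₐ[ℂ] L) A X i
    rw [hX] at this
    rw [← this]
    refine (ht i).trans ?_
    congr 2
    fin_cases i
    · exact map_one _
    · rfl
    · rfl

end Pool.Agent.Helper69.SX.Main
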