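import Mathlib

set_option autoImplicit false

namespace Pool.Agent.Helper69.SX

/-- Two `2 × 2` matrices all of whose linear combinations are singular have a common vector in
their kernels or in the kernels of their transposes. -/
theorem pencil (p q r s p' q' r' s' : ℂ) (h1 : p * s - q * r = 0) (h2 : p' * s' - q' * r' = 0)
    (h3 : p * s' + s * p' - q * r' - r * q' = 0) :
    (∃ v0 v1 : ℂ, (v0 ≠ 0 ∨ v1 ≠ 0) ∧ p * v0 + q * v1 = 0 ∧ r * v0 + s * v1 = 0 ∧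
      p' * v0 + q' * v1 = 0 ∧ r' * v0 + s' * v1 = 0) ∨
    (∃ u0 u1 : ℂ, (u0 ≠ 0 ∨ u1 ≠ 0) ∧ u0 * p + u1 * r = 0 ∧ u0 * q + u1 * s = 0 ∧
      u0 * p' + u1 * r' = 0 ∧ u0 * q' + u1 * s' = 0) := by
  have key : ∀ v0 v1 u0 u1 : ℂ, (v0 ≠ 0 ∨ v1 ≠ 0) → (u0 ≠ 0 ∨ u1 ≠ 0) →
      p * v0 + q * v1 = 0 → r * v0 + s * v1 = 0 → u0 * p + u1 * r = 0 → u0 * q + u1 * s = 0 →
      ((p' * v0 + q' * v1) * (u0 * p' + u1 * r') = 0 ∧
        (p' * v0 + q' * v1) * (u0 * q' + u1 * s') = 0 ∧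
        (r' * v0 + s' * v1) * (u0 * p' + u1 * r') = 0 ∧
        (r' * v0 + s' * v1) * (u0 * q' + u1 * s') = 0) →
      (∃ v0 v1 : ℂ, (v0 ≠ 0 ∨ v1 ≠ 0) ∧ p * v0 + q * v1 = 0 ∧ r * v0 + s * v1 = 0 ∧
        p' * v0 + q' * v1 = 0 ∧ r' * v0 + s' * v1 = 0) ∨
      (∃ u0 u1 : ℂ, (u0 ≠ 0 ∨ u1 ≠ 0) ∧ u0 * p + u1 * r = 0 ∧ u0 * q + u1 * s = 0 ∧
        u0 * p' + u1 * r' = 0 ∧ u0 * q' + u1 * s' = 0) := by
    intro v0 v1 u0 u1 hv hu a1 a2 b1 b2 hprod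
    obtain ⟨c1, c2, c3, c4⟩ := hprod
    by_cases e1 : p' * v0 + q' * v1 = 0
    · by_cases e2 : r' * v0 + s' * v1 = 0
      · exact Or.inl ⟨v0, v1, hv, a1, a2, e1, e2⟩
      · exact Or.inr ⟨u0, u1, hu, b1, b2, (mul_eq_zero.1 c3).resolve_left e2,
          (mul_eq_zero.1 c4).resolve_left e2⟩
    · exact Or.inr ⟨u0, u1, hu, b1, b2, (mul_eq_zero.1 c1).resolve_left e1,
        (mul_eq_zero.1 c2).resolve_left e1⟩
  by_cases hs : s = 0
  · by_cases hq : q = 0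
    · by_cases hr : r = 0
      · by_cases hp : p = 0
        · subst hs hq hr hp
          by_cases hz : p' = 0 ∧ q' = 0
          · by_cases hz' : r' = 0 ∧ s' = 0
            · exact Or.inl ⟨1, 0, Or.inl one_ne_zero, by ring, by ring, by simp [hz.1],
                by simp [hz'.1]⟩
            · refine Or.inl ⟨-s', r', ?_, by ring, by ring, by simp [hz.1, hz.2], by ring⟩
              by_contra hc
              push Not at hc
              exact hz' ⟨hc.2, neg_eq_zero.1 hc.1⟩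
          · refine Or.inl ⟨-q', p', ?_, by ring, by ring, by ring, by linear_combination h2⟩
            by_contra hc
            push Not at hc
            exact hz ⟨hc.2, neg_eq_zero.1 hc.1⟩
        · refine key (-q) p (-r) p (Or.inr hp) (Or.inr hp) ?_ ?_ ?_ ?_ ⟨?_, ?_, ?_, ?_⟩ <;> grind
      · refine key s (-r) (-r) p (Or.inr (neg_ne_zero.2 hr)) (Or.inl (neg_ne_zero.2 hr)) ?_ ?_ ?_ ?_
          ⟨?_, ?_, ?_, ?_⟩ <;> grind
    · refine key (-q) p s (-q) (Or.inl (neg_ne_zero.2 hq)) (Or.inr (neg_ne_zero.2 hq)) ?_ ?_ ?_ ?_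
        ⟨?_, ?_, ?_, ?_⟩ <;> grind
  · refine key s (-r) s (-q) (Or.inl hs) (Or.inl hs) ?_ ?_ ?_ ?_ ⟨?_, ?_, ?_, ?_⟩ <;> grind

end Pool.Agent.Helper69.SX
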