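import Pool.Agent.Helper54.SD.OddFin
import Pool.Agent.Helper69.SX.Pencil

set_option autoImplicit false

namespace Pool.Agent.Helper69.SX

open MvPolynomial Module Matrix

section Algebra

variable {R : Type} [CommRing R] [Algebra ℂ R]

/-- The vector `x = (x₁, x₂, w)`, for the coordinates `p = (x₁, x₂, y₁, y₂, w, z)`. -/
def xvec (p : Fin 6 → R) : Fin 3 → R := ![p 0, p 1, p 4]

/-- The vector `y = (y₁, y₂, w)`. -/
def yvec (p : Fin 6 → R) : Fin 3 → R := ![p 2, p 3, p 4]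

/-- The `3 × 3` matrix with the rows `xᵀ A i`, where `z` is added to the last entry of the first
row. -/
def matX (A : Fin 3 → Matrix (Fin 3) (Fin 3) ℂ) (p : Fin 6 → R) : Matrix (Fin 3) (Fin 3) R :=
  Matrix.of fun i => xvec p ᵥ* (A i).map (algebraMap ℂ R) + ![![0, 0, p 5], 0, 0] i

/-- The `3 × 3` matrix with the rows `A i y`, where `z` is added to the last entry of the first
row. -/
def matY (A : Fin 3 → Matrix (Fin 3) (Fin 3) ℂ) (p : Fin 6 → R) : Matrix (Fin 3) (Fin 3) R :=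
  Matrix.of fun i => (A i).map (algebraMap ℂ R) *ᵥ yvec p + ![![0, 0, p 5], 0, 0] i

/-- The three quadratic forms `xᵀ A 0 y + w z`, `xᵀ A 1 y`, `xᵀ A 2 y`. -/
def quad (A : Fin 3 → Matrix (Fin 3) (Fin 3) ℂ) (p : Fin 6 → R) (i : Fin 3) : R :=
  xvec p ⬝ᵥ ((A i).map (algebraMap ℂ R) *ᵥ yvec p) + ![p 4 * p 5, 0, 0] i

/-- The cubic form `a det (matX) + b det (matY) + Σ i, l i (p) * quad i`. -/
def cubic (A : Fin 3 → Matrix (Fin 3) (Fin 3) ℂ) (a b : ℂ) (l : Fin 3 → Fin 6 → ℂ)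
    (p : Fin 6 → R) : R :=
  algebraMap ℂ R a * (matX A p).det + algebraMap ℂ R b * (matY A p).det +
    ∑ i, (∑ j, algebraMap ℂ R (l i j) * p j) * quad A p i

theorem quad_eq (A : Fin 3 → Matrix (Fin 3) (Fin 3) ℂ) (a b : ℂ) (l : Fin 3 → Fin 6 → ℂ)
    (p : Fin 6 → R) (i : Fin 3) : quad A p i = Helper69.SD.Dat.Q ⟨A, a, b, l⟩ p i := by
  simp only [quad, Helper69.SD.Dat.Q, Helper69.SD.Dat.mx, Matrix.mulVec, Matrix.of_apply, xvec,
    yvec, Helper69.SD.xv, Helper69.SD.yv, dotProduct, Matrix.vecMul, Fin.sum_univ_three,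
    Matrix.map_apply, Pi.add_apply]
  fin_cases i <;> simp <;> ring

theorem cubic_eq (A : Fin 3 → Matrix (Fin 3) (Fin 3) ℂ) (a b : ℂ)
    (l : Fin 3 → Fin 6 → ℂ) (p : Fin 6 → R) :
    cubic A a b l p = Helper69.SD.Dat.cubic ⟨A, a, b, l⟩ p := by
  simp only [cubic, Helper69.SD.Dat.cubic, quad_eq A a b l]
  rfl

variable {S : Type} [CommRing S] [Algebra ℂ S]

theorem matX_map (φ : R →ₐ[ℂ] S) (A : Fin 3 → Matrix (Fin 3) (Fin 3) ℂ) (p : Fin 6 → R) :
    (matX A p).map φ = matX A (fun i => φ (p i)) := by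
  ext i k
  fin_cases i <;> fin_cases k <;>
    simp [matX, xvec, Matrix.vecMul, dotProduct, Fin.sum_univ_three]

theorem matY_map (φ : R →ₐ[ℂ] S) (A : Fin 3 → Matrix (Fin 3) (Fin 3) ℂ) (p : Fin 6 → R) :
    (matY A p).map φ = matY A (fun i => φ (p i)) := by
  ext i k
  fin_cases i <;> fin_cases k <;>
    simp [matY, yvec, Matrix.mulVec, dotProduct, Fin.sum_univ_three]

theorem quad_map (φ : R →ₐ[ℂ] S) (A : Fin 3 → Matrix (Fin 3) (Fin 3) ℂ) (p : Fin 6 → R)
    (i : Fin 3) : φ (quad A p i) = quad A (fun i => φ (p i)) i := by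
  fin_cases i <;>
    simp [quad, xvec, yvec, Matrix.mulVec, dotProduct, Fin.sum_univ_three]

theorem cubic_map (φ : R →ₐ[ℂ] S) (A : Fin 3 → Matrix (Fin 3) (Fin 3) ℂ) (a b : ℂ)
    (l : Fin 3 → Fin 6 → ℂ) (p : Fin 6 → R) :
    φ (cubic A a b l p) = cubic A a b l (fun i => φ (p i)) := by
  have h1 : φ (matX A p).det = (matX A (fun i => φ (p i))).det := by
    rw [← matX_map, AlgHom.map_det]
    rfl
  have h2 : φ (matY A p).det = (matY A (fun i => φ (p i))).det := by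
    rw [← matY_map, AlgHom.map_det]
    rfl
  have h3 : φ (∑ i, (∑ j, algebraMap ℂ R (l i j) * p j) * quad A p i) =
      ∑ i, (∑ j, algebraMap ℂ S (l i j) * φ (p j)) * quad A (fun i => φ (p i)) i := by
    rw [map_sum]
    refine Finset.sum_congr rfl fun i _ => ?_
    rw [map_mul, map_sum, quad_map]
    congr 1
    refine Finset.sum_congr rfl fun j _ => ?_
    rw [map_mul, AlgHom.commutes]
  unfold cubic
  rw [map_add, map_add, map_mul, map_mul, h1, h2, h3, AlgHom.commutes, AlgHom.commutes]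

end Algebra

/-- The cubic form as a polynomial. -/
noncomputable def poly (A : Fin 3 → Matrix (Fin 3) (Fin 3) ℂ) (a b : ℂ) (l : Fin 3 → Fin 6 → ℂ) :
    MvPolynomial (Fin 6) ℂ := cubic A a b l X

theorem eval_poly (A : Fin 3 → Matrix (Fin 3) (Fin 3) ℂ) (a b : ℂ) (l : Fin 3 → Fin 6 → ℂ)
    (q : Fin 6 → ℂ) : eval q (poly A a b l) = cubic A a b l q := by
  have h := cubic_map (aeval q : MvPolynomial (Fin 6) ℂ →ₐ[ℂ] ℂ) A a b l X
  have h2 : (fun i => aeval q (X i : MvPolynomial (Fin 6) ℂ)) = q := by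
    ext i
    simp
  rw [h2] at h
  rw [← h, ← MvPolynomial.aeval_eq_eval]
  rfl

theorem det_hom (M : Matrix (Fin 3) (Fin 3) (MvPolynomial (Fin 6) ℂ))
    (hM : ∀ i j, (M i j).IsHomogeneous 1) : M.det.IsHomogeneous 3 := by
  rw [Matrix.det_fin_three]
  have h : ∀ a b c d e f, (M a b * M c d * M e f).IsHomogeneous 3 := fun a b c d e f =>
    ((hM a b).mul (hM c d)).mul (hM e f)
  exact (((((h _ _ _ _ _ _).sub (h _ _ _ _ _ _)).sub (h _ _ _ _ _ _)).add
    (h _ _ _ _ _ _)).add (h _ _ _ _ _ _)).sub (h _ _ _ _ _ _)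

theorem xvec_hom (j : Fin 3) :
    (xvec (X : Fin 6 → MvPolynomial (Fin 6) ℂ) j).IsHomogeneous 1 := by
  fin_cases j <;> simp [xvec, isHomogeneous_X]

theorem yvec_hom (j : Fin 3) :
    (yvec (X : Fin 6 → MvPolynomial (Fin 6) ℂ) j).IsHomogeneous 1 := by
  fin_cases j <;> simp [yvec, isHomogeneous_X]

theorem C_hom (c : ℂ) : (algebraMap ℂ (MvPolynomial (Fin 6) ℂ) c).IsHomogeneous 0 :=
  isHomogeneous_C _ _

theorem matX_hom (A : Fin 3 → Matrix (Fin 3) (Fin 3) ℂ) (i k : Fin 3) :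
    (matX A (X : Fin 6 → MvPolynomial (Fin 6) ℂ) i k).IsHomogeneous 1 := by
  have h1 : ((xvec (X : Fin 6 → MvPolynomial (Fin 6) ℂ) ᵥ*
      (A i).map (algebraMap ℂ (MvPolynomial (Fin 6) ℂ))) k).IsHomogeneous 1 := by
    simp only [Matrix.vecMul, dotProduct]
    refine IsHomogeneous.sum _ _ _ fun j _ => ?_
    exact (xvec_hom j).mul (C_hom _)
  have h2 : ((![![0, 0, X 5], 0, 0] : Fin 3 → Fin 3 → MvPolynomial (Fin 6) ℂ) i k).IsHomogeneous
      1 := by
    fin_cases i <;> fin_cases k <;> simp [isHomogeneous_X, isHomogeneous_zero]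
  exact h1.add h2

theorem matY_hom (A : Fin 3 → Matrix (Fin 3) (Fin 3) ℂ) (i k : Fin 3) :
    (matY A (X : Fin 6 → MvPolynomial (Fin 6) ℂ) i k).IsHomogeneous 1 := by
  have h1 : (((A i).map (algebraMap ℂ (MvPolynomial (Fin 6) ℂ)) *ᵥ
      yvec (X : Fin 6 → MvPolynomial (Fin 6) ℂ)) k).IsHomogeneous 1 := by
    simp only [Matrix.mulVec, dotProduct]
    refine IsHomogeneous.sum _ _ _ fun j _ => ?_
    have := (C_hom (A i k j)).mul (yvec_hom j)
    rwa [zero_add] at this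
  have h2 : ((![![0, 0, X 5], 0, 0] : Fin 3 → Fin 3 → MvPolynomial (Fin 6) ℂ) i k).IsHomogeneous
      1 := by
    fin_cases i <;> fin_cases k <;> simp [isHomogeneous_X, isHomogeneous_zero]
  exact h1.add h2

theorem quad_hom (A : Fin 3 → Matrix (Fin 3) (Fin 3) ℂ) (i : Fin 3) :
    (quad A (X : Fin 6 → MvPolynomial (Fin 6) ℂ) i).IsHomogeneous 2 := by
  have h1 : (xvec (X : Fin 6 → MvPolynomial (Fin 6) ℂ) ⬝ᵥ
      ((A i).map (algebraMap ℂ (MvPolynomial (Fin 6) ℂ)) *ᵥ yvec X)).IsHomogeneous 2 := by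
    simp only [Matrix.mulVec, dotProduct]
    refine IsHomogeneous.sum _ _ _ fun j _ => ?_
    refine (xvec_hom j).mul (n := 1) ?_
    refine IsHomogeneous.sum _ _ _ fun k _ => ?_
    have := (C_hom (A i j k)).mul (yvec_hom k)
    rwa [zero_add] at this
  have h2 : ((![X 4 * X 5, 0, 0] : Fin 3 → MvPolynomial (Fin 6) ℂ) i).IsHomogeneous 2 := by
    fin_cases i
    · exact (isHomogeneous_X _ _).mul (isHomogeneous_X _ _)
    · exact isHomogeneous_zero _ _ _
    · exact isHomogeneous_zero _ _ _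
  exact h1.add h2

theorem poly_hom (A : Fin 3 → Matrix (Fin 3) (Fin 3) ℂ) (a b : ℂ) (l : Fin 3 → Fin 6 → ℂ) :
    (poly A a b l).IsHomogeneous 3 := by
  refine IsHomogeneous.add (IsHomogeneous.add ?_ ?_) ?_
  · have := (C_hom a).mul (det_hom _ (matX_hom A))
    rwa [zero_add] at this
  · have := (C_hom b).mul (det_hom _ (matY_hom A))
    rwa [zero_add] at this
  · refine IsHomogeneous.sum _ _ _ fun i _ => ?_
    refine IsHomogeneous.mul (m := 1) (n := 2) ?_ (quad_hom A i)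
    refine IsHomogeneous.sum _ _ _ fun j _ => ?_
    have := (C_hom (l i j)).mul (isHomogeneous_X ℂ j)
    rwa [zero_add] at this

section Planes

variable {A : Fin 3 → Matrix (Fin 3) (Fin 3) ℂ} {a b : ℂ} {l : Fin 3 → Fin 6 → ℂ}

theorem plane_of (F : MvPolynomial (Fin 6) ℂ)
    (hP : ∀ W : Submodule ℂ (Fin 6 → ℂ), finrank ℂ W = 3 → ∃ x ∈ W, eval x F ≠ 0)
    (e : Fin 3 → Fin 6 → ℂ) (he : LinearIndependent ℂ e)
    (hF : ∀ s : Fin 3 → ℂ, eval (∑ i, s i • e i) F = 0) : False := by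
  obtain ⟨x, hx, hx'⟩ := hP (Submodule.span ℂ (Set.range e)) (by
    rw [finrank_span_eq_card he]
    rfl)
  obtain ⟨s, hs⟩ := (Submodule.mem_span_range_iff_exists_fun ℂ).1 hx
  rw [← hs] at hx'
  exact hx' (hF s)

/-- The planes `{(s u, t v, 0, z)}`. -/
theorem plane_uv (F : MvPolynomial (Fin 6) ℂ)
    (hP : ∀ W : Submodule ℂ (Fin 6 → ℂ), finrank ℂ W = 3 → ∃ x ∈ W, eval x F ≠ 0)
    (u0 u1 v0 v1 : ℂ) (hu : u0 ≠ 0 ∨ u1 ≠ 0) (hv : v0 ≠ 0 ∨ v1 ≠ 0)
    (hF : ∀ s t z : ℂ, eval ![s * u0, s * u1, t * v0, t * v1, 0, z] F = 0) : False := by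
  refine plane_of F hP ![![u0, u1, 0, 0, 0, 0], ![0, 0, v0, v1, 0, 0], ![0, 0, 0, 0, 0, 1]] ?_ ?_
  · rw [Fintype.linearIndependent_iff]
    intro g hg
    have h0 := congrFun hg 0
    have h1 := congrFun hg 1
    have h2 := congrFun hg 2
    have h3 := congrFun hg 3
    have h5 := congrFun hg 5
    simp [Fin.sum_univ_three] at h0 h1 h2 h3 h5
    intro i
    fin_cases i
    · rcases hu with hu | hu
      · exact h0.resolve_right hu
      · exact h1.resolve_right hu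
    · rcases hv with hv | hv
      · exact h2.resolve_right hv
      · exact h3.resolve_right hv
    · exact h5
  · intro s
    have : (∑ i, s i • (![![u0, u1, 0, 0, 0, 0], ![0, 0, v0, v1, 0, 0], ![0, 0, 0, 0, 0, 1]] :
        Fin 3 → Fin 6 → ℂ) i) = ![s 0 * u0, s 0 * u1, s 1 * v0, s 1 * v1, 0, s 2] := by
      ext j
      fin_cases j <;> simp [Fin.sum_univ_three]
    rw [this]
    exact hF _ _ _

theorem plane_x (F : MvPolynomial (Fin 6) ℂ)
    (hP : ∀ W : Submodule ℂ (Fin 6 → ℂ), finrank ℂ W = 3 → ∃ x ∈ W, eval x F ≠ 0)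
    (hF : ∀ s t z : ℂ, eval ![s, t, 0, 0, 0, z] F = 0) : False := by
  refine plane_of F hP ![![1, 0, 0, 0, 0, 0], ![0, 1, 0, 0, 0, 0], ![0, 0, 0, 0, 0, 1]] ?_ ?_
  · rw [Fintype.linearIndependent_iff]
    intro g hg
    have h0 := congrFun hg 0
    have h1 := congrFun hg 1
    have h5 := congrFun hg 5
    simp [Fin.sum_univ_three] at h0 h1 h5
    intro i
    fin_cases i
    · exact h0
    · exact h1
    · exact h5
  · intro s
    have : (∑ i, s i • (![![1, 0, 0, 0, 0, 0], ![0, 1, 0, 0, 0, 0], ![0, 0, 0, 0, 0, 1]] :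
        Fin 3 → Fin 6 → ℂ) i) = ![s 0, s 1, 0, 0, 0, s 2] := by
      ext j
      fin_cases j <;> simp [Fin.sum_univ_three]
    rw [this]
    exact hF _ _ _

theorem plane_y (F : MvPolynomial (Fin 6) ℂ)
    (hP : ∀ W : Submodule ℂ (Fin 6 → ℂ), finrank ℂ W = 3 → ∃ x ∈ W, eval x F ≠ 0)
    (hF : ∀ s t z : ℂ, eval ![0, 0, s, t, 0, z] F = 0) : False := by
  refine plane_of F hP ![![0, 0, 1, 0, 0, 0], ![0, 0, 0, 1, 0, 0], ![0, 0, 0, 0, 0, 1]] ?_ ?_
  · rw [Fintype.linearIndependent_iff]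
    intro g hg
    have h0 := congrFun hg 2
    have h1 := congrFun hg 3
    have h5 := congrFun hg 5
    simp [Fin.sum_univ_three] at h0 h1 h5
    intro i
    fin_cases i
    · exact h0
    · exact h1
    · exact h5
  · intro s
    have : (∑ i, s i • (![![0, 0, 1, 0, 0, 0], ![0, 0, 0, 1, 0, 0], ![0, 0, 0, 0, 0, 1]] :
        Fin 3 → Fin 6 → ℂ) i) = ![0, 0, s 0, s 1, 0, s 2] := by
      ext j
      fin_cases j <;> simp [Fin.sum_univ_three]
    rw [this]
    exact hF _ _ _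

theorem a_ne_zero
    (hP : ∀ W : Submodule ℂ (Fin 6 → ℂ), finrank ℂ W = 3 → ∃ x ∈ W, eval x (poly A a b l) ≠ 0) :
    a ≠ 0 := by
  intro ha
  refine plane_x _ hP fun s t z => ?_
  rw [eval_poly]
  have h1 : (matY A (![s, t, 0, 0, 0, z] : Fin 6 → ℂ)).det = 0 := by
    rw [Matrix.det_fin_three]
    simp [matY, yvec, Matrix.mulVec, dotProduct, Fin.sum_univ_three]
  have h2 : ∀ i, quad A (![s, t, 0, 0, 0, z] : Fin 6 → ℂ) i = 0 := by
    intro i
    fin_cases i <;> simp [quad, xvec, yvec, Matrix.mulVec, dotProduct, Fin.sum_univ_three]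
  simp [cubic, ha, h1, h2]

theorem b_ne_zero
    (hP : ∀ W : Submodule ℂ (Fin 6 → ℂ), finrank ℂ W = 3 → ∃ x ∈ W, eval x (poly A a b l) ≠ 0) :
    b ≠ 0 := by
  intro hb
  refine plane_y _ hP fun s t z => ?_
  rw [eval_poly]
  have h1 : (matX A (![0, 0, s, t, 0, z] : Fin 6 → ℂ)).det = 0 := by
    rw [Matrix.det_fin_three]
    simp [matX, xvec, Matrix.vecMul, dotProduct, Fin.sum_univ_three]
  have h2 : ∀ i, quad A (![0, 0, s, t, 0, z] : Fin 6 → ℂ) i = 0 := by
    intro i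
    fin_cases i <;> simp [quad, xvec, yvec, Matrix.mulVec, dotProduct, Fin.sum_univ_three]
  simp [cubic, hb, h1, h2]

theorem exists_perp (g0 g1 : ℂ) : ∃ β0 β1 : ℂ, (β0 ≠ 0 ∨ β1 ≠ 0) ∧ β0 * g0 + β1 * g1 = 0 := by
  by_cases h : g0 = 0 ∧ g1 = 0
  · exact ⟨1, 0, Or.inl one_ne_zero, by simp [h.1]⟩
  · refine ⟨-g1, g0, ?_, by ring⟩
    by_contra hc
    push Not at hc
    exact h ⟨hc.2, neg_eq_zero.1 hc.1⟩

theorem block
    (hP : ∀ W : Submodule ℂ (Fin 6 → ℂ), finrank ℂ W = 3 → ∃ x ∈ W, eval x (poly A a b l) ≠ 0) :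
    ∃ c c' : ℂ, ((c • A 1 + c' • A 2).submatrix ![0, 1] ![0, 1]).det ≠ 0 := by
  by_contra hc
  push Not at hc
  have e1 := hc 1 0
  have e2 := hc 0 1
  have e3 := hc 1 1
  rw [Matrix.det_fin_two] at e1 e2 e3
  simp at e1 e2 e3
  rcases pencil (A 1 0 0) (A 1 0 1) (A 1 1 0) (A 1 1 1) (A 2 0 0) (A 2 0 1) (A 2 1 0) (A 2 1 1)
    e1 e2 (by linear_combination e3 - e1 - e2) with
    ⟨v0, v1, hv, k1, k2, k3, k4⟩ | ⟨u0, u1, hu, k1, k2, k3, k4⟩
  · obtain ⟨β0, β1, hβ, hg⟩ := exists_perp (A 0 0 0 * v0 + A 0 0 1 * v1)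
      (A 0 1 0 * v0 + A 0 1 1 * v1)
    refine plane_uv _ hP β0 β1 v0 v1 hβ hv fun s t z => ?_
    rw [eval_poly]
    have h1 : (matX A (![s * β0, s * β1, t * v0, t * v1, 0, z] : Fin 6 → ℂ)).det = 0 := by
      rw [← Matrix.exists_mulVec_eq_zero_iff]
      refine ⟨![v0, v1, 0], ?_, ?_⟩
      · intro h
        have h0 := congrFun h 0
        have h1 := congrFun h 1
        simp at h0 h1
        rcases hv with hv | hv
        · exact hv h0
        · exact hv h1
      · ext i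
        fin_cases i <;>
          simp [matX, xvec, Matrix.mulVec, Matrix.vecMul, dotProduct, Fin.sum_univ_three]
        · linear_combination s * hg
        · linear_combination s * β0 * k1 + s * β1 * k2
        · linear_combination s * β0 * k3 + s * β1 * k4
    have h2 : (matY A (![s * β0, s * β1, t * v0, t * v1, 0, z] : Fin 6 → ℂ)).det = 0 := by
      rw [Matrix.det_fin_three]
      simp [matY, yvec, Matrix.mulVec, dotProduct, Fin.sum_univ_three]
      have g1 : A 1 0 0 * (t * v0) + A 1 0 1 * (t * v1) = 0 := by linear_combination t * k1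
      have g2 : A 1 1 0 * (t * v0) + A 1 1 1 * (t * v1) = 0 := by linear_combination t * k2
      have g3 : A 2 0 0 * (t * v0) + A 2 0 1 * (t * v1) = 0 := by linear_combination t * k3
      have g4 : A 2 1 0 * (t * v0) + A 2 1 1 * (t * v1) = 0 := by linear_combination t * k4
      rw [g1, g2, g3, g4]
      ring
    have h3 : ∀ i, quad A (![s * β0, s * β1, t * v0, t * v1, 0, z] : Fin 6 → ℂ) i = 0 := by
      intro i
      fin_cases i <;> simp [quad, xvec, yvec, Matrix.mulVec, dotProduct, Fin.sum_univ_three]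
      · linear_combination s * t * hg
      · linear_combination s * t * β0 * k1 + s * t * β1 * k2
      · linear_combination s * t * β0 * k3 + s * t * β1 * k4
    simp [cubic, h1, h2, h3]
  · obtain ⟨β0, β1, hβ, hg⟩ := exists_perp (u0 * A 0 0 0 + u1 * A 0 1 0)
      (u0 * A 0 0 1 + u1 * A 0 1 1)
    refine plane_uv _ hP u0 u1 β0 β1 hu hβ fun s t z => ?_
    rw [eval_poly]
    have h1 : (matY A (![s * u0, s * u1, t * β0, t * β1, 0, z] : Fin 6 → ℂ)).det = 0 := by
      rw [← Matrix.exists_mulVec_eq_zero_iff]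
      refine ⟨![u0, u1, 0], ?_, ?_⟩
      · intro h
        have h0 := congrFun h 0
        have h1 := congrFun h 1
        simp at h0 h1
        rcases hu with hu | hu
        · exact hu h0
        · exact hu h1
      · ext i
        fin_cases i <;>
          simp [matY, yvec, Matrix.mulVec, dotProduct, Fin.sum_univ_three]
        · linear_combination t * hg
        · linear_combination t * β0 * k1 + t * β1 * k2
        · linear_combination t * β0 * k3 + t * β1 * k4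
    have h2 : (matX A (![s * u0, s * u1, t * β0, t * β1, 0, z] : Fin 6 → ℂ)).det = 0 := by
      rw [Matrix.det_fin_three]
      simp [matX, xvec, Matrix.vecMul, dotProduct, Fin.sum_univ_three]
      have g1 : s * u0 * A 1 0 0 + s * u1 * A 1 1 0 = 0 := by linear_combination s * k1
      have g2 : s * u0 * A 1 0 1 + s * u1 * A 1 1 1 = 0 := by linear_combination s * k2
      have g3 : s * u0 * A 2 0 0 + s * u1 * A 2 1 0 = 0 := by linear_combination s * k3
      have g4 : s * u0 * A 2 0 1 + s * u1 * A 2 1 1 = 0 := by linear_combination s * k4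
      rw [g1, g2, g3, g4]
      ring
    have h3 : ∀ i, quad A (![s * u0, s * u1, t * β0, t * β1, 0, z] : Fin 6 → ℂ) i = 0 := by
      intro i
      fin_cases i <;> simp [quad, xvec, yvec, Matrix.mulVec, dotProduct, Fin.sum_univ_three]
      · linear_combination s * t * hg
      · linear_combination s * t * β0 * k1 + s * t * β1 * k2
      · linear_combination s * t * β0 * k3 + s * t * β1 * k4
    simp [cubic, h1, h2, h3]

end Planes

/-- The field `ℂ(T₁, T₂)` of rational functions of the plane. -/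
abbrev Plane : Type := FractionRing (MvPolynomial (Fin 2) ℂ)

/-- The generic point `(1, T₁, T₂)` of the plane. -/
noncomputable def generic : Fin 3 → Plane :=
  ![1, algebraMap (MvPolynomial (Fin 2) ℂ) Plane (X 0),
    algebraMap (MvPolynomial (Fin 2) ℂ) Plane (X 1)]

/-- The form with a basis and with the conditions on the coefficients. -/
theorem basis_form (A : Fin 3 → Matrix (Fin 3) (Fin 3) ℂ) (a b : ℂ) (l : Fin 3 → Fin 6 → ℂ)
    (ha : a ≠ 0) (hb : b ≠ 0)
    (hA : ∃ c c' : ℂ, ((c • A 1 + c' • A 2).submatrix ![0, 1] ![0, 1]).det ≠ 0)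
    (F : MvPolynomial (Fin 6) ℂ) (hF : F.IsHomogeneous 3)
    (hs : ∀ x : Fin 6 → ℂ, x ≠ 0 → ∃ i, eval x (pderiv i F) ≠ 0)
    (w : Basis (Fin 6) ℂ (Fin 6 → ℂ))
    (hw : ∀ p : Fin 6 → ℂ, eval (∑ i, p i • w i) F = cubic A a b l p)
    (L : Type) [Field L] [Algebra ℂ L] [Algebra Plane L] [IsScalarTower ℂ Plane L]
    (hL : Odd (finrank Plane L)) (p : Fin 6 → L) (m : L) (hm : m ≠ 0)
    (hp : cubic A a b l p = 0) (ht : ∀ i, quad A p i = m * algebraMap Plane L (generic i)) :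
    (Ideal.span {aeval (Fin.cons 1 X : Fin 6 → MvPolynomial (Fin 5) ℂ) F}).IsPrime ∧
      Nonempty (FractionRing (MvPolynomial (Fin 5) ℂ ⧸
          Ideal.span {aeval (Fin.cons 1 X : Fin 6 → MvPolynomial (Fin 5) ℂ) F}) ≃ₐ[ℂ]
        FractionRing (MvPolynomial (Fin 4) ℂ)) := by
  obtain ⟨c, c', hc⟩ := hA
  have hn : ∃ e : Fin 2 → ℂ, Helper69.SD.Dat.dt ⟨A, a, b, l⟩ e ≠ 0 := by
    refine ⟨![c', -c], ?_⟩
    intro h
    apply hc
    rw [← h]
    simp only [Helper69.SD.Dat.dt, Helper69.SD.Dat.n, Matrix.det_fin_two,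
      Matrix.submatrix_apply, Matrix.add_apply, Matrix.smul_apply, smul_eq_mul]
    simp [Helper69.SD.cc]
    ring
  have h0 : quad A p 0 = m := by
    rw [ht 0]
    simp [generic]
  refine Helper54.SD.odd_main (D := ⟨A, a, b, l⟩) hF hs w
    (fun q => (hw q).trans (cubic_eq A a b l q)) ha hb hn hL p
    ((cubic_eq A a b l p).symm.trans hp) ?_ ?_ ?_
  · rw [← quad_eq A a b l, h0]
    exact hm
  · rw [← quad_eq A a b l, ← quad_eq A a b l, h0, ht 1, mul_comm]
    rfl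
  · rw [← quad_eq A a b l, ← quad_eq A a b l, h0, ht 2, mul_comm]
    rfl

/-- The form without conditions on the coefficients, for cubic fourfolds without planes. -/
theorem noplane_form (A : Fin 3 → Matrix (Fin 3) (Fin 3) ℂ) (a b : ℂ) (l : Fin 3 → Fin 6 → ℂ)
    (F : MvPolynomial (Fin 6) ℂ) (hF : F = cubic A a b l X)
    (hs : ∀ x : Fin 6 → ℂ, x ≠ 0 → ∃ i, eval x (pderiv i F) ≠ 0)
    (hP : ∀ W : Submodule ℂ (Fin 6 → ℂ), finrank ℂ W = 3 → ∃ x ∈ W, eval x F ≠ 0)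
    (L : Type) [Field L] [Algebra ℂ L] [Algebra Plane L] [IsScalarTower ℂ Plane L]
    (hL : Odd (finrank Plane L)) (p : Fin 6 → L) (m : L) (hm : m ≠ 0)
    (hp : cubic A a b l p = 0) (ht : ∀ i, quad A p i = m * algebraMap Plane L (generic i)) :
    (Ideal.span {aeval (Fin.cons 1 X : Fin 6 → MvPolynomial (Fin 5) ℂ) F}).IsPrime ∧
      Nonempty (FractionRing (MvPolynomial (Fin 5) ℂ ⧸
          Ideal.span {aeval (Fin.cons 1 X : Fin 6 → MvPolynomial (Fin 5) ℂ) F}) ≃ₐ[ℂ]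
        FractionRing (MvPolynomial (Fin 4) ℂ)) := by
  subst hF
  refine basis_form A a b l (a_ne_zero hP) (b_ne_zero hP) (block hP) _ (poly_hom A a b l) hs
    (Pi.basisFun ℂ (Fin 6)) (fun q => ?_) L hL p m hm hp ht
  have : (∑ i, q i • Pi.basisFun ℂ (Fin 6) i) = q := by
    have := (Pi.basisFun ℂ (Fin 6)).sum_repr q
    simpa using this
  rw [this]
  exact eval_poly A a b l q

end Pool.Agent.Helper69.SX
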